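import Pool.Agent.H44.Cub.Main

set_option autoImplicit false

/-!
# Sidorenko's conjecture for cubic graphs

For every `3`-regular graph `G` with `k` vertices and `m` edges, every triangle-free graph on
`k + m` vertices has a complement that contains `G`.
-/

namespace Pool.Agent.Results.MP_be0ce5_co.CubicGraphs

open Finset

theorem result :
    ∀ (V : Type) [Fintype V] (G : SimpleGraph V) [DecidableRel G.Adj],
      G.IsRegularOfDegree 3 →
      ∀ H : SimpleGraph (Fin (Fintype.card V + G.edgeSet.ncard)),
        ¬ H.CliqueFree 3 ∨ G.IsContained Hᶜ := by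
  intro V _ G _ hreg H
  rw [or_iff_not_imp_left, not_not]
  intro hfree
  classical
  have tri : Pool.Agent.H44.Cub.TriFree H := by
    intro a b c hab hbc hac
    exact hfree {a, b, c} (SimpleGraph.is3Clique_triple_iff.2 ⟨hab, hac, hbc⟩)
  have hdeg : ∀ (u : V) (A : Finset V), (Pool.Agent.H44.Cub.nb G A u).card ≤ 3 := by
    intro u A
    have h := hreg u
    rw [← h, ← SimpleGraph.card_neighborFinset_eq_degree]
    refine Finset.card_le_card ?_
    intro w hw
    rw [SimpleGraph.mem_neighborFinset]
    exact (Pool.Agent.H44.Cub.mem_nb.1 hw).2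
  have hedge : 2 * G.edgeSet.ncard = Fintype.card V * 3 := by
    have h1 := G.sum_degrees_eq_twice_card_edges
    have h2 : ∑ v, G.degree v = Fintype.card V * 3 := by
      rw [Finset.sum_congr rfl fun v _ => hreg v, Finset.sum_const, smul_eq_mul,
        Finset.card_univ]
    have h3 : G.edgeSet.ncard = G.edgeFinset.card := by
      rw [← SimpleGraph.coe_edgeFinset, Set.ncard_coe_finset]
    rw [h3, ← h1, h2]
  rcases isEmpty_or_nonempty V with hV | hV
  · refine ⟨⟨⟨fun v => (hV.false v).elim, ?_⟩, ?_⟩⟩
    · intro a _ _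
      exact (hV.false a).elim
    · intro a _ _
      exact (hV.false a).elim
  have hpos : 0 < Fintype.card V + G.edgeSet.ncard := by
    have := Fintype.card_pos (α := V)
    omega
  have : Nonempty (Fin (Fintype.card V + G.edgeSet.ncard)) := ⟨⟨0, hpos⟩⟩
  obtain ⟨f, ⟨hinj, hadj⟩, _⟩ := Pool.Agent.H44.Cub.embed tri hdeg (Fintype.card V) univ
    Finset.card_univ (univ : Finset (Fin (Fintype.card V + G.edgeSet.ncard)))
    (by
      rw [Finset.card_univ, Fintype.card_fin]
      apply Pool.Agent.H44.Cub.g_even
      omega)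
  have hf : Function.Injective f := fun a b hab =>
    hinj a (Finset.mem_univ a) b (Finset.mem_univ b) hab
  refine ⟨⟨⟨f, ?_⟩, hf⟩⟩
  intro a b hab
  rw [SimpleGraph.compl_adj]
  exact ⟨fun h => hab.ne (hf h), hadj a (Finset.mem_univ a) b (Finset.mem_univ b) hab⟩

end Pool.Agent.Results.MP_be0ce5_co.CubicGraphs
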