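import Pool.Agent.H60.Ram3.Main

set_option autoImplicit false

/-!
# Sidorenko's conjecture for regular graphs of large degree

For every `d`-regular graph `G` with `k` vertices and `m` edges, where `d ≥ 20000`, every
triangle-free graph on `k + m` vertices has a complement that contains `G`.
-/

namespace Pool.Agent.Results.MP_be0ce5_co.LargeDegree

open Finset Function

theorem result :
    ∀ (V : Type) [Fintype V] (G : SimpleGraph V) [DecidableRel G.Adj] (d : ℕ),
      20000 ≤ d → G.IsRegularOfDegree d →
      ∀ H : SimpleGraph (Fin (Fintype.card V + G.edgeSet.ncard)),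
        ¬ H.CliqueFree 3 ∨ G.IsContained Hᶜ := by
  intro V _ G _ d hd hreg H
  rw [or_iff_not_imp_left, not_not]
  intro hfree
  classical
  have tri : ∀ a b c, H.Adj a b → H.Adj b c → ¬ H.Adj a c := by
    intro a b c hab hbc hac
    exact hfree {a, b, c} (SimpleGraph.is3Clique_triple_iff.2 ⟨hab, hac, hbc⟩)
  have hdeg : ∀ u : V, (univ.filter (fun w => G.Adj u w)).card = d := by
    intro u
    have h := hreg u
    rw [← h, ← SimpleGraph.card_neighborFinset_eq_degree]
    congr 1
    ext w
    simp
  have hedge : 2 * G.edgeSet.ncard = Fintype.card V * d := by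
    have h1 := G.sum_degrees_eq_twice_card_edges
    have h2 : ∑ v, G.degree v = Fintype.card V * d := by
      rw [Finset.sum_congr rfl fun v _ => hreg v, Finset.sum_const, smul_eq_mul,
        Finset.card_univ]
    have h3 : G.edgeSet.ncard = G.edgeFinset.card := by
      rw [← SimpleGraph.coe_edgeFinset, Set.ncard_coe_finset]
    rw [h3, ← h1, h2]
  obtain ⟨f, hf, hadj⟩ := Pool.Agent.H60.Ram3.exists_embedding (G := G) (H := H) tri hd
    (by
      intro u
      refine le_of_eq ?_
      rw [← hdeg u]
      congr!)
    (by
      rw [Fintype.card_fin]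
      omega)
  refine ⟨⟨⟨f, ?_⟩, hf⟩⟩
  intro a b hab
  rw [SimpleGraph.compl_adj]
  exact ⟨fun h => hab.ne (hf h), hadj a b hab⟩

end Pool.Agent.Results.MP_be0ce5_co.LargeDegree
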